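import Pool.Agent.D0H30.OPU.GA

/-!
# Project OP in all universes: openness makes the group abelian (copy of V1192/UOA.lean and D0H43/OP/Abel.lean)
-/

open Filter Topology Pool.Agent.D0H30.OPU.GA Metric

universe u

namespace Pool.Agent.D0H30.OPU.Cen

/-- Pointwise open multiplication. -/
def OpenMul (A : Type u) [NormedRing A] : Prop :=
  ∀ a b : A, ∀ ε > 0, ∃ δ > 0, ∀ c ∈ Metric.ball (a * b) δ, ∃ x ∈ Metric.ball a ε,
    ∃ y ∈ Metric.ball b ε, x * y = c

/-- The algebraic core of the Peirce decomposition argument. -/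
theorem peirce_core {R : Type*} [Ring R] (e f x y h : R) (hee : e * e = e) (hff : f * f = f)
    (hef : e * f = 0) (hfe : f * e = 0) (h1 : e + f = 1) (hxy : x * y = h)
    (hh : f * h * e = h) (hu : IsUnit (e * x * e + f)) (hw : IsUnit (f * y * f + e)) : h = 0 := by
  obtain ⟨u, hu⟩ := hu
  obtain ⟨w, hw⟩ := hw
  have hx : x * (e + f) * y = h := by rw [h1, mul_one, hxy]
  have heh : e * h = 0 := by rw [← hh, ← mul_assoc, ← mul_assoc, hef]; simp
  have hhf : h * f = 0 := by rw [← hh, mul_assoc, hef, mul_zero]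
  -- the four relations
  have r1 : (u : R) * (e * y * f) + (e * x * f) * w = 0 := by
    have : (u : R) * (e * y * f) + (e * x * f) * w = e * (x * (e + f) * y) * f := by
      rw [hu, hw]
      calc (e * x * e + f) * (e * y * f) + e * x * f * (f * y * f + e)
          = e * x * (e * e) * y * f + (f * e) * y * f + e * x * (f * f) * y * f
            + e * x * (f * e) := by noncomm_ring
        _ = e * x * e * y * f + e * x * f * y * f := by rw [hee, hff, hfe]; simp
        _ = _ := by noncomm_ring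
    rw [this, hx, heh, zero_mul]
  have r2 : (u : R) * (e * y * e) + (e * x * f) * (f * y * e) = 0 := by
    have : (u : R) * (e * y * e) + (e * x * f) * (f * y * e) = e * (x * (e + f) * y) * e := by
      rw [hu]
      calc (e * x * e + f) * (e * y * e) + e * x * f * (f * y * e)
          = e * x * (e * e) * y * e + (f * e) * y * e + e * x * (f * f) * y * e := by
            noncomm_ring
        _ = e * x * e * y * e + e * x * f * y * e := by rw [hee, hff, hfe]; simp
        _ = _ := by noncomm_ring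
    rw [this, hx, heh, zero_mul]
  have r3 : (f * x * e) * (e * y * f) + (f * x * f) * w = 0 := by
    have : (f * x * e) * (e * y * f) + (f * x * f) * w = f * ((x * (e + f) * y) * f) := by
      rw [hw]
      calc (f * x * e) * (e * y * f) + f * x * f * (f * y * f + e)
          = f * x * (e * e) * y * f + f * x * (f * f) * y * f + f * x * (f * e) := by
            noncomm_ring
        _ = f * x * e * y * f + f * x * f * y * f := by rw [hee, hff, hfe]; simp
        _ = _ := by noncomm_ring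
    rw [this, hx, hhf, mul_zero]
  have r4 : (f * x * e) * (e * y * e) + (f * x * f) * (f * y * e) = h := by
    have : (f * x * e) * (e * y * e) + (f * x * f) * (f * y * e)
        = f * (x * (e + f) * y) * e := by
      calc (f * x * e) * (e * y * e) + f * x * f * (f * y * e)
          = f * x * (e * e) * y * e + f * x * (f * f) * y * e := by noncomm_ring
        _ = f * x * e * y * e + f * x * f * y * e := by rw [hee, hff]
        _ = _ := by noncomm_ring
    rw [this, hx, hh]
  generalize e * y * f = Y12 at *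
  generalize e * x * f = X12 at *
  generalize e * y * e = Y11 at *
  generalize f * y * e = Y21 at *
  generalize f * x * e = X21 at *
  generalize f * x * f = X22 at *
  have s1 : Y12 = - (↑u⁻¹ * X12 * w) := by
    have : (u : R) * Y12 = - (X12 * w) := eq_neg_of_add_eq_zero_left r1
    calc Y12 = ↑u⁻¹ * (u * Y12) := by rw [Units.inv_mul_cancel_left]
      _ = _ := by rw [this]; noncomm_ring
  have s2 : Y11 = - (↑u⁻¹ * X12 * Y21) := by
    have : (u : R) * Y11 = - (X12 * Y21) := eq_neg_of_add_eq_zero_left r2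
    calc Y11 = ↑u⁻¹ * (u * Y11) := by rw [Units.inv_mul_cancel_left]
      _ = _ := by rw [this]; noncomm_ring
  have s3 : X22 = X21 * ↑u⁻¹ * X12 := by
    have h2 : X22 * (w : R) = - (X21 * Y12) := eq_neg_of_add_eq_zero_right r3
    rw [s1] at h2
    have h3 : X22 * (w : R) = (X21 * ↑u⁻¹ * X12) * w := by rw [h2]; noncomm_ring
    exact w.isUnit.mul_right_cancel h3
  rw [← r4, s2, s3]
  noncomm_ring

section Central

variable {A : Type u} [NormedRing A] [NormedAlgebra ℂ A] [CompleteSpace A]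

omit [CompleteSpace A] [NormedAlgebra ℂ A] in
theorem compl_idem (e : A) (he : e * e = e) : (1 - e) * (1 - e) = 1 - e := by
  calc (1 - e) * (1 - e) = 1 - e - e + e * e := by noncomm_ring
    _ = 1 - e := by rw [he]; abel

/-- Half of the centrality of idempotents. -/
theorem idem_half (hA : OpenMul A) (e : A) (he : e * e = e) (t : A) :
    (1 - e) * t * e = 0 := by
  set f : A := 1 - e with hf
  have hff : f * f = f := compl_idem e he
  have hef : e * f = 0 := by rw [hf, mul_sub, mul_one, he, sub_self]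
  have hfe : f * e = 0 := by rw [hf, sub_mul, one_mul, he, sub_self]
  have h1 : e + f = 1 := by rw [hf]; abel
  set K : ℝ := ‖e‖ * ‖e‖ + ‖f‖ * ‖f‖ + 1 with hK
  have hK0 : 0 < K := by positivity
  obtain ⟨δ, hδ, hopen⟩ := hA e f (1 / K) (by positivity)
  -- scale the element `f t e`
  set h0 : A := f * t * e with hh0
  obtain ⟨c, hc0, hc⟩ : ∃ c : ℂ, c ≠ 0 ∧ ‖c • h0‖ < δ := by
    refine ⟨((δ / (‖h0‖ + 1) / 2 : ℝ) : ℂ), ?_, ?_⟩
    · have : δ / (‖h0‖ + 1) / 2 ≠ 0 := by positivity
      exact_mod_cast this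
    · rw [norm_smul, Complex.norm_real, Real.norm_of_nonneg (by positivity)]
      have h2 : (0 : ℝ) < ‖h0‖ + 1 := by positivity
      have h3 : δ / (‖h0‖ + 1) / 2 * ‖h0‖ ≤ δ / 2 := by
        rw [div_div, div_mul_eq_mul_div, div_le_div_iff₀ (by positivity) (by positivity)]
        nlinarith [norm_nonneg h0]
      linarith
  obtain ⟨x, hx, y, hy, hxy⟩ := hopen (c • h0) (by
    rw [hef, mem_ball_zero_iff]; exact hc)
  rw [mem_ball, dist_eq_norm] at hx hy
  have hu : IsUnit (e * x * e + f) := by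
    have h2 : e * x * e + f = 1 - e * (e - x) * e := by
      rw [hf]
      have : e * (e - x) * e = e - e * x * e := by
        calc e * (e - x) * e = e * e * e - e * x * e := by noncomm_ring
          _ = _ := by rw [he, he]
      rw [this]; abel
    rw [h2]
    have h3 : ‖e * (e - x) * e‖ < 1 := by
      calc ‖e * (e - x) * e‖ ≤ ‖e‖ * ‖e - x‖ * ‖e‖ :=
            (norm_mul_le _ _).trans (mul_le_mul_of_nonneg_right (norm_mul_le _ _) (norm_nonneg _))
        _ = (‖e‖ * ‖e‖) * ‖x - e‖ := by rw [norm_sub_rev e x]; ring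
        _ ≤ (‖e‖ * ‖e‖) * (1 / K) := mul_le_mul_of_nonneg_left hx.le (by positivity)
        _ < 1 := by
          rw [mul_one_div, div_lt_one hK0, hK]
          nlinarith [mul_self_nonneg ‖f‖]
    exact isUnit_one_sub_of_norm_lt_one h3
  have hw : IsUnit (f * y * f + e) := by
    have h2 : f * y * f + e = 1 - f * (f - y) * f := by
      have : f * (f - y) * f = f - f * y * f := by
        calc f * (f - y) * f = f * f * f - f * y * f := by noncomm_ring
          _ = _ := by rw [hff, hff]
      rw [this, ← h1]; abel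
    rw [h2]
    have h3 : ‖f * (f - y) * f‖ < 1 := by
      calc ‖f * (f - y) * f‖ ≤ ‖f‖ * ‖f - y‖ * ‖f‖ :=
            (norm_mul_le _ _).trans (mul_le_mul_of_nonneg_right (norm_mul_le _ _) (norm_nonneg _))
        _ = (‖f‖ * ‖f‖) * ‖y - f‖ := by rw [norm_sub_rev f y]; ring
        _ ≤ (‖f‖ * ‖f‖) * (1 / K) := mul_le_mul_of_nonneg_left hy.le (by positivity)
        _ < 1 := by
          rw [mul_one_div, div_lt_one hK0, hK]
          nlinarith [mul_self_nonneg ‖e‖]
    exact isUnit_one_sub_of_norm_lt_one h3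
  have h2 := peirce_core e f x y (c • h0) he hff hef hfe h1 hxy (by
    rw [mul_smul_comm, smul_mul_assoc, hh0]
    congr 1
    calc f * (f * t * e) * e = (f * f) * t * (e * e) := by noncomm_ring
      _ = _ := by rw [hff, he]) hu hw
  exact (smul_eq_zero.1 h2).resolve_left hc0

/-- In an algebra with open multiplication idempotents are central. -/
theorem idem_central (hA : OpenMul A) (e : A) (he : e * e = e) (t : A) : e * t = t * e := by
  have h1 := idem_half hA e he t
  have h2 := idem_half hA (1 - e) (compl_idem e he) t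
  have h3 : t * e = e * t * e := by
    have : (1 - e) * t * e = t * e - e * t * e := by noncomm_ring
    rw [this] at h1
    exact sub_eq_zero.1 h1
  have h4 : e * t = e * t * e := by
    have : (1 - (1 - e)) * t * (1 - e) = e * t - e * t * e := by noncomm_ring
    rw [this] at h2
    exact sub_eq_zero.1 h2
  rw [h3, ← h4]

end Central

section Group

variable {G : Type u} [Group G]

/-- The faithful character idempotent of a cyclic group, up to normalisation. -/
noncomputable def EE (x : G) (m : ℕ) (ζ : ℂ) : GA G :=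
  (1 / (m : ℂ)) • ∑ j ∈ Finset.range m, (ζ⁻¹ ^ j) • pt (x ^ j)

theorem pt_mul_EE (x : G) (m : ℕ) (ζ : ℂ) (hx : x ^ m = 1) (hζ : ζ ^ m = 1) (hζ0 : ζ ≠ 0) :
    pt x * EE x m ζ = ζ • EE x m ζ := by
  rcases Nat.eq_zero_or_pos m with rfl | hm
  · simp [EE]
  have h1 : pt x * ∑ j ∈ Finset.range m, (ζ⁻¹ ^ j) • pt (x ^ j)
      = ζ • ∑ j ∈ Finset.range m, (ζ⁻¹ ^ (j + 1)) • pt (x ^ (j + 1)) := by
    rw [Finset.mul_sum, Finset.smul_sum]
    refine Finset.sum_congr rfl (fun j _ => ?_)
    rw [mul_smul_comm, pt_mul, smul_smul, pow_succ' x]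
    congr 1
    rw [pow_succ', ← mul_assoc, mul_inv_cancel₀ hζ0, one_mul]
  have h2 : ∑ j ∈ Finset.range m, (ζ⁻¹ ^ (j + 1)) • pt (x ^ (j + 1))
      = ∑ j ∈ Finset.range m, (ζ⁻¹ ^ j) • pt (x ^ j) := by
    have h3 := Finset.sum_range_succ' (fun j => (ζ⁻¹ ^ j) • pt (x ^ j)) m
    have h4 := Finset.sum_range_succ (fun j => (ζ⁻¹ ^ j) • pt (x ^ j)) m
    rw [h3] at h4
    have h5 : (ζ⁻¹ ^ m) • pt (x ^ m) = (ζ⁻¹ ^ 0) • pt (x ^ 0) := by
      rw [hx, inv_pow, hζ]; simp
    rw [h5] at h4
    exact add_right_cancel h4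
  rw [EE, mul_smul_comm, h1, h2, smul_comm]

theorem pow_mul_EE (x : G) (m : ℕ) (ζ : ℂ) (hx : x ^ m = 1) (hζ : ζ ^ m = 1) (hζ0 : ζ ≠ 0)
    (j : ℕ) : pt (x ^ j) * EE x m ζ = (ζ ^ j) • EE x m ζ := by
  induction j with
  | zero => rw [pow_zero, pow_zero, pt_one, one_mul, one_smul]
  | succ j ih =>
    rw [pow_succ, ← pt_mul, mul_assoc, pt_mul_EE x m ζ hx hζ hζ0, mul_smul_comm, ih, smul_smul,
      pow_succ']

theorem EE_idem (x : G) (m : ℕ) (hm : m ≠ 0) (ζ : ℂ) (hx : x ^ m = 1) (hζ : ζ ^ m = 1)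
    (hζ0 : ζ ≠ 0) : EE x m ζ * EE x m ζ = EE x m ζ := by
  have h2 : EE x m ζ * EE x m ζ
      = (1 / (m : ℂ)) • ∑ j ∈ Finset.range m, (ζ⁻¹ ^ j) • pt (x ^ j) * EE x m ζ := by
    rw [← Finset.sum_mul, ← smul_mul_assoc]; rfl
  rw [h2]
  have h1 : ∀ j ∈ Finset.range m, (ζ⁻¹ ^ j) • pt (x ^ j) * EE x m ζ = EE x m ζ := by
    intro j _
    rw [smul_mul_assoc, pow_mul_EE x m ζ hx hζ hζ0, smul_smul, ← mul_pow, inv_mul_cancel₀ hζ0,
      one_pow, one_smul]
  rw [Finset.sum_congr rfl h1, Finset.sum_const, Finset.card_range]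
  have hm0 : (m : ℂ) ≠ 0 := by exact_mod_cast hm
  rw [← Nat.cast_smul_eq_nsmul ℂ, smul_smul, one_div, inv_mul_cancel₀ hm0, one_smul]

open Classical in
theorem val_pt (g h : G) : val (pt g) h = if h = g then 1 else 0 := by
  split_ifs with hh
  · subst hh; exact Pool.Agent.D0H30.OPU.L1.co_e_self h
  · exact Pool.Agent.D0H30.OPU.L1.co_e_ne hh

/-- Evaluation at a point as a linear map. -/
noncomputable def valL (x : G) : GA G →ₗ[ℂ] ℂ where
  toFun a := val a x
  map_add' a b := Pool.Agent.D0H30.OPU.L1.co_add a b x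
  map_smul' c a := Pool.Agent.D0H30.OPU.L1.co_smul c a x

open Classical in
theorem val_EE (x : G) (m : ℕ) (ζ : ℂ) (g : G) :
    val (EE x m ζ) g = (1 / (m : ℂ)) * ∑ j ∈ Finset.range m, if g = x ^ j then ζ⁻¹ ^ j else 0 := by
  change valL g (EE x m ζ) = _
  rw [EE, map_smul, map_sum, smul_eq_mul]
  congr 1
  refine Finset.sum_congr rfl (fun j _ => ?_)
  rw [map_smul, smul_eq_mul]
  change _ * val (pt (x ^ j)) g = _
  rw [val_pt]
  split_ifs <;> simp

/-- A torsion group whose `ℓ¹`-algebra has only central idempotents is abelian. -/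
theorem comm_of_central (h : ∀ (e : GA G), e * e = e → ∀ t, e * t = t * e) (x y : G)
    (hx : orderOf x ≠ 0) : y * x = x * y := by
  classical
  set m := orderOf x with hm
  set ζ : ℂ := Complex.exp (2 * Real.pi * Complex.I / m) with hζ
  have hprim : IsPrimitiveRoot ζ m := Complex.isPrimitiveRoot_exp m hx
  have hζ0 : ζ ≠ 0 := Complex.exp_ne_zero _
  have hxm : x ^ m = 1 := pow_orderOf_eq_one x
  have hζm : ζ ^ m = 1 := hprim.pow_eq_one
  have hidem := EE_idem x m hx ζ hxm hζm hζ0
  have hcen := h _ hidem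
  set E := EE x m ζ with hE
  -- the commutator acts trivially
  have h1 : pt (y * x * y⁻¹) * E = ζ • E := by
    rw [← pt_mul, ← pt_mul, mul_assoc, ← hcen, ← mul_assoc, mul_assoc (pt y), pt_mul_EE x m ζ hxm hζm hζ0,
      mul_smul_comm, smul_mul_assoc, mul_assoc, hcen, ← mul_assoc, pt_mul, mul_inv_cancel,
      pt_one, one_mul]
  have hxinv : pt x⁻¹ * E = ζ⁻¹ • E := by
    have h2 := congrArg (fun a => ζ⁻¹ • (pt x⁻¹ * a)) (pt_mul_EE x m ζ hxm hζm hζ0)
    rw [← mul_assoc, pt_mul, inv_mul_cancel, pt_one, one_mul, mul_smul_comm, smul_smul,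
      inv_mul_cancel₀ hζ0, one_smul] at h2
    exact h2.symm
  have h2 : pt (y * x * y⁻¹ * x⁻¹) * E = E := by
    rw [← pt_mul, mul_assoc, hxinv, mul_smul_comm, h1, smul_smul, inv_mul_cancel₀ hζ0, one_smul]
  -- compare values
  set g := y * x * y⁻¹ * x⁻¹ with hg
  have hm0 : (m : ℂ) ≠ 0 := by exact_mod_cast hx
  have h3 : val E g = 1 / (m : ℂ) := by
    rw [← h2]
    have h4 : val (pt g * E) g = val E (g⁻¹ * g) := by
      rw [val_mul, tsum_eq_single g]
      · rw [val_pt, if_pos rfl, one_mul]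
      · intro b hb
        rw [val_pt, if_neg hb, zero_mul]
    rw [h4, inv_mul_cancel, hE, val_EE, Finset.sum_eq_single 0]
    · simp
    · intro j hj hj0
      rw [if_neg]
      intro h5
      have := orderOf_dvd_of_pow_eq_one h5.symm
      exact absurd (Nat.le_of_dvd (Nat.pos_of_ne_zero hj0) this)
        (not_le.2 (Finset.mem_range.1 hj))
    · intro h5
      exact absurd (Finset.mem_range.2 (Nat.pos_of_ne_zero hx)) h5
  have h4 : ∃ k < m, g = x ^ k := by
    by_contra hcon
    push Not at hcon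
    rw [hE, val_EE, Finset.sum_eq_zero (fun j hj => if_neg (hcon j (Finset.mem_range.1 hj))),
      mul_zero] at h3
    exact (one_div_ne_zero hm0) h3.symm
  obtain ⟨k, hk, hgk⟩ := h4
  have h5 : ζ⁻¹ ^ k = 1 := by
    rw [hE, val_EE, Finset.sum_eq_single k, if_pos hgk] at h3
    · have h6 : (1 / (m : ℂ)) ≠ 0 := one_div_ne_zero hm0
      have h7 : (1 / (m : ℂ)) * ζ⁻¹ ^ k = (1 / (m : ℂ)) * 1 := by rw [h3, mul_one]
      exact mul_left_cancel₀ h6 h7
    · intro j hj hjk
      rw [if_neg]
      intro h8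
      rw [hgk] at h8
      exact hjk (pow_injOn_Iio_orderOf (Set.mem_Iio.2 (Finset.mem_range.1 hj)) (Set.mem_Iio.2 hk)
        h8.symm)
    · intro h8
      exact absurd (Finset.mem_range.2 hk) h8
  have h6 : k = 0 := by
    have h7 : ζ ^ k = 1 := by
      rw [inv_pow] at h5
      exact inv_eq_one.1 h5
    have h8 := (hprim.pow_eq_one_iff_dvd k).1 h7
    by_contra hk0
    exact absurd (Nat.le_of_dvd (Nat.pos_of_ne_zero hk0) h8) (not_le.2 hk)
  rw [h6, pow_zero] at hgk
  have h7 : y * x * y⁻¹ * x⁻¹ = 1 := hgk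
  have h8 : y * x * y⁻¹ = x := by
    rw [mul_inv_eq_one] at h7; exact h7
  rw [mul_inv_eq_iff_eq_mul] at h8
  exact h8

end Group


/-- pointwise openness makes a torsion group abelian -/
theorem abel (G : Type u) [Group G] (n : ℕ) (hn : 0 < n) (hG : ∀ g : G, g ^ n = 1)
    (hA : OpenMul (GA G)) (x y : G) : x * y = y * x := by
  refine (comm_of_central (fun e he t => idem_central hA e he t) x y ?_).symm
  exact (orderOf_pos_iff.2 (isOfFinOrder_iff_pow_eq_one.2 ⟨n, hn, hG x⟩)).ne'

end Pool.Agent.D0H30.OPU.Cen
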