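import Pool.Agent.D0H30.OPU.Push
import Pool.Agent.D0H30.OPU.Grp

/-!
# Project OP in all universes: the final reduction (copy of V1192/UOE.lean and D0H73/OP/Fin.lean)
-/

universe u

namespace Pool.Agent.D0H30.OPU

open Pool.Agent.D0H30.OPU.GA Metric

section Conv

variable {G : Type u} [Group G]

/-- The convolution of two absolutely summable functions is absolutely summable. -/
theorem conv_mem (a b : lp (fun _ : G => ℂ) 1) :
    Memℓp (fun x : G => ∑' y : G, a y * b (y⁻¹ * x)) 1 := by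
  have h : (fun x : G => ∑' y : G, a y * b (y⁻¹ * x))
      = Pool.Agent.D0H30.OPU.L1.co ((show GA G from a) * (show GA G from b) : GA G) := by
    funext x
    exact (val_mul (show GA G from a) (show GA G from b) x).symm
  rw [h]
  exact lp.memℓp (show lp (fun _ : G => ℂ) 1 from
    ((show GA G from a) * (show GA G from b) : GA G))

/-- Convolution on `ℓ¹(G)`. -/
noncomputable def conv (a b : lp (fun _ : G => ℂ) 1) : lp (fun _ : G => ℂ) 1 :=
  ⟨fun x : G => ∑' y : G, a y * b (y⁻¹ * x), conv_mem a b⟩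

theorem conv_eq (a b : GA G) : conv (G := G) a b = (a * b : GA G) := by
  apply Subtype.ext
  funext x
  exact (val_mul a b x).symm

end Conv

open Pool.Agent.D0H30.OPU.Cen (OpenMul)

/-- Open convolution gives pointwise open multiplication of `GA G`. -/
theorem openMul_of (G : Type u) [Group G]
    (h : IsOpenMap (fun q : lp (fun _ : G => ℂ) 1 × lp (fun _ : G => ℂ) 1 => conv q.1 q.2)) :
    OpenMul (GA G) := by
  intro a b ε hε
  set a' : lp (fun _ : G => ℂ) 1 := a with ha'
  set b' : lp (fun _ : G => ℂ) 1 := b with hb'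
  have h1 : IsOpen (ball a' ε ×ˢ ball b' ε) := isOpen_ball.prod isOpen_ball
  have h2 := h _ h1
  rw [Metric.isOpen_iff] at h2
  obtain ⟨δ, hδ, H⟩ := h2 (conv a' b') ⟨(a', b'), ⟨mem_ball_self hε, mem_ball_self hε⟩, rfl⟩
  refine ⟨δ, hδ, fun c hc => ?_⟩
  rw [mem_ball, dist_eq_norm] at hc
  have hc' : (show lp (fun _ : G => ℂ) 1 from c) ∈ ball (conv a' b') δ := by
    rw [mem_ball, dist_eq_norm, ha', hb', conv_eq]
    exact hc
  obtain ⟨⟨x, y⟩, ⟨hx, hy⟩, hxy⟩ := H hc'
  refine ⟨x, ?_, y, ?_, ?_⟩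
  · simp only [mem_ball, dist_eq_norm] at hx ⊢
    exact hx
  · simp only [mem_ball, dist_eq_norm] at hy ⊢
    exact hy
  · have := conv_eq (G := G) x y
    rw [← this]
    exact hxy


/-- For every infinite group of bounded exponent convolution is not open (from the finite theorem). -/
theorem main (hFIN : Pool.Agent.D0H73.OP.S_FIN) (hNUM : Pool.Agent.D0H73.OP.S_NUM)
    (hAAF : Pool.Agent.D0H73.OP.S_AAF) (G : Type u) [Group G] [Infinite G] (n : ℕ) (hn : 0 < n)
    (hG : ∀ g : G, g ^ n = 1) :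
    ¬ IsOpenMap (fun q : lp (fun _ : G => ℂ) 1 × lp (fun _ : G => ℂ) 1 => conv q.1 q.2) := by
  intro hopen
  have h := openMul_of G hopen
  have hc := Cen.abel G n hn hG h
  let _ : CommGroup G := { ‹Group G› with mul_comm := hc }
  obtain ⟨p, hp, hmaps⟩ := grp G n hn hG
  have : Fact p.Prime := ⟨hp⟩
  obtain ⟨N, hN, hfin⟩ := hFIN p
  obtain ⟨ψ, hψ, t, ht, ht'⟩ := hmaps N
  obtain ⟨h1, -, -, -, h5, h6⟩ := hNUM p
  exact core hN hfin h1 h5 h6 (fun n F => (hAAF p N n hN).1 F) ψ hψ t ht ht' h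

end Pool.Agent.D0H30.OPU
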