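import Mathlib

/-!
# (copy of the starting file V1192/L1.lean for all universes) The space `ℓ¹(ι)` and its universal property
-/

universe u

open Filter Topology
open scoped ENNReal

namespace Pool.Agent.D0H30.OPU.L1

noncomputable section

/-- The Banach space `ℓ¹(ι)` of absolutely summable complex families. -/
def L1 (ι : Type u) : Type u := lp (fun _ : ι => ℂ) 1

variable {ι : Type u}

instance : NormedAddCommGroup (L1 ι) := inferInstanceAs (NormedAddCommGroup (lp (fun _ : ι => ℂ) 1))

instance : NormedSpace ℂ (L1 ι) := inferInstanceAs (NormedSpace ℂ (lp (fun _ : ι => ℂ) 1))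

instance : CompleteSpace (L1 ι) := inferInstanceAs (CompleteSpace (lp (fun _ : ι => ℂ) 1))

/-- The coordinates of an element of `ℓ¹(ι)`. -/
def co (a : L1 ι) : ι → ℂ := a.1

theorem co_add (a b : L1 ι) (i : ι) : co (a + b) i = co a i + co b i := rfl

theorem co_smul (c : ℂ) (a : L1 ι) (i : ι) : co (c • a) i = c * co a i := rfl

theorem summable_co (a : L1 ι) : Summable (fun i => ‖co a i‖) := by
  have h := (lp.memℓp (show lp (fun _ : ι => ℂ) 1 from a)).summable (by simp)
  simp only [ENNReal.toReal_one, Real.rpow_one] at h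
  exact h

theorem norm_eq (a : L1 ι) : ‖a‖ = ∑' i, ‖co a i‖ := by
  have h := lp.norm_eq_tsum_rpow (p := 1) (by simp) (show lp (fun _ : ι => ℂ) 1 from a)
  simp only [ENNReal.toReal_one, Real.rpow_one, div_one] at h
  exact h

section Classical

open Classical in
/-- The standard basis of `ℓ¹(ι)`. -/
def e (i : ι) : L1 ι := lp.single (E := fun _ : ι => ℂ) 1 i (1 : ℂ)

theorem norm_e (i : ι) : ‖e i‖ = 1 := by
  classical
  have := lp.norm_single (E := fun _ : ι => ℂ) (p := 1) (by simp) i (1 : ℂ)
  rw [norm_one] at this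
  exact this

theorem co_e_self (i : ι) : co (e i) i = 1 := by
  classical
  exact lp.single_apply_self (E := fun _ : ι => ℂ) 1 i (1 : ℂ)

theorem co_e_ne {i j : ι} (h : j ≠ i) : co (e i) j = 0 := by
  classical
  exact lp.single_apply_ne (E := fun _ : ι => ℂ) 1 i (1 : ℂ) h

theorem hasSum_e (a : L1 ι) : HasSum (fun i => co a i • e i) a := by
  classical
  have h := lp.hasSum_single (E := fun _ : ι => ℂ) (p := 1) (by simp)
    (show lp (fun _ : ι => ℂ) 1 from a)
  have h2 : (fun i => co a i • e i)
      = fun i => lp.single (E := fun _ : ι => ℂ) 1 i ((show lp (fun _ : ι => ℂ) 1 from a) i) := by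
    funext i
    have := lp.single_smul (E := fun _ : ι => ℂ) (p := 1) i (co a i) (1 : ℂ)
    simp only [smul_eq_mul, mul_one] at this
    exact this.symm
  rw [h2]
  exact h

end Classical

variable {Y : Type*} [NormedAddCommGroup Y] [NormedSpace ℂ Y]

/-- Representation of a bounded operator on `ℓ¹(ι)`. -/
theorem hasSum_map (T : L1 ι →L[ℂ] Y) (a : L1 ι) : HasSum (fun i => co a i • T (e i)) (T a) := by
  have := (hasSum_e a).mapL T
  simpa using this

/-- Operators on `ℓ¹(ι)` are determined on the basis. -/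
theorem ext_e {S T : L1 ι →L[ℂ] Y} (h : ∀ i, S (e i) = T (e i)) : S = T := by
  ext a
  have h1 := hasSum_map S a
  have h2 := hasSum_map T a
  simp only [h] at h1
  exact h1.unique h2

theorem norm_le_of_e {T : L1 ι →L[ℂ] Y} {C : ℝ} (hC : 0 ≤ C) (h : ∀ i, ‖T (e i)‖ ≤ C) :
    ‖T‖ ≤ C := by
  refine T.opNorm_le_bound hC (fun a => ?_)
  have h1 := hasSum_map T a
  rw [← h1.tsum_eq, norm_eq, ← tsum_mul_left]
  refine tsum_of_norm_bounded ((summable_co a).mul_left C).hasSum (fun i => ?_)
  rw [norm_smul, mul_comm]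
  exact mul_le_mul_of_nonneg_right (h i) (norm_nonneg _)

section Lift

variable [CompleteSpace Y]

theorem summable_lift (T : ι → Y) {C : ℝ} (hT : ∀ i, ‖T i‖ ≤ C) (a : L1 ι) :
    Summable (fun i => co a i • T i) := by
  refine Summable.of_norm_bounded ((summable_co a).mul_right C) (fun i => ?_)
  rw [norm_smul]
  exact mul_le_mul_of_nonneg_left (hT i) (norm_nonneg _)

/-- The operator on `ℓ¹(ι)` with prescribed bounded values on the basis. -/
def lift (T : ι → Y) (C : ℝ) (hT : ∀ i, ‖T i‖ ≤ C) : L1 ι →L[ℂ] Y :=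
  LinearMap.mkContinuous
    { toFun := fun a => ∑' i, co a i • T i
      map_add' := fun a b => by
        rw [← (summable_lift T hT a).tsum_add (summable_lift T hT b)]
        simp only [co_add, add_smul]
      map_smul' := fun c a => by
        rw [RingHom.id_apply, ← (summable_lift T hT a).tsum_const_smul]
        simp only [co_smul, mul_smul] } C (fun a => by
      rw [norm_eq, ← tsum_mul_left]
      refine tsum_of_norm_bounded ((summable_co a).mul_left C).hasSum (fun i => ?_)
      rw [norm_smul, mul_comm]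
      exact mul_le_mul_of_nonneg_right (hT i) (norm_nonneg _))

theorem lift_e (T : ι → Y) (C : ℝ) (hT : ∀ i, ‖T i‖ ≤ C) (i : ι) : lift T C hT (e i) = T i := by
  change ∑' j, co (e i) j • T j = T i
  rw [tsum_eq_single i]
  · rw [co_e_self, one_smul]
  · intro j hj
    rw [co_e_ne hj, zero_smul]

theorem norm_lift_le (T : ι → Y) (C : ℝ) (hT : ∀ i, ‖T i‖ ≤ C) (hC : 0 ≤ C) :
    ‖lift T C hT‖ ≤ C := norm_le_of_e hC (fun i => by rw [lift_e]; exact hT i)

end Lift

/-- Pointwise convergence of uniformly bounded operators follows from that on the basis. -/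
theorem tendsto_of_e [CompleteSpace Y] {κ : Type*} {l : Filter κ} [l.IsCountablyGenerated]
    (T : κ → L1 ι →L[ℂ] Y) (S : L1 ι →L[ℂ] Y)
    (C : ℝ) (hT : ∀ k i, ‖T k (e i)‖ ≤ C) (h : ∀ i, Tendsto (fun k => T k (e i)) l (𝓝 (S (e i))))
    (a : L1 ι) : Tendsto (fun k => T k a) l (𝓝 (S a)) := by
  have h1 : ∀ k, T k a = ∑' i, co a i • T k (e i) := fun k => (hasSum_map (T k) a).tsum_eq.symm
  have h2 : S a = ∑' i, co a i • S (e i) := (hasSum_map S a).tsum_eq.symm
  simp only [h1]
  rw [h2]
  refine tendsto_tsum_of_dominated_convergence (bound := fun i => ‖co a i‖ * C)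
    ((summable_co a).mul_right C) (fun i => (h i).const_smul _) (Filter.Eventually.of_forall
    (fun k i => ?_))
  rw [norm_smul]
  exact mul_le_mul_of_nonneg_left (hT k i) (norm_nonneg _)

end

end Pool.Agent.D0H30.OPU.L1
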